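import Pool.Agent.W912.SE.Defs
import Pool.Agent.H622R2.Ckt.Base
import Pool.Agent.W900.CH.PLev

/-!
# Logarithmic depth simulation of circuits relative to random oracles with changed strings:
definitions and parts
-/

set_option autoImplicit false

namespace Pool.Agent.W912.ND

open Pool.Agent.NPC Pool.Agent.H620R2.Gauge Pool.Agent.H622R2.Ckt H568R2 Pool.Agent.H676
open Pool.Agent.W900.CH Filter
open Pool.Agent.W912.SE (cw)

/-! ## Depth -/

/-- The depth of a wire, if `d` is the list of the depths of the gates so far. -/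
def wdep (d : List ℕ) : Wire → ℕ
  | .gate j => d.getD j 0
  | _ => 0

/-- The depth of a gate: one more than the maximal depth of its wires for AND, OR, NOT; an oracle
gate with `k` wires adds the logarithm of `k` (to base 2, rounded up, at least 1). -/
def gdep (d : List ℕ) : Gate → ℕ
  | .and r s => max (wdep d r) (wdep d s) + 1
  | .or r s => max (wdep d r) (wdep d s) + 1
  | .not r => wdep d r + 1
  | .ask l => (l.map (wdep d)).foldr max 0 + max 1 (Nat.clog 2 l.length)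

/-- The list of the depths of all gates. -/
def gateDeps (gs : List Gate) : List ℕ := gs.foldl (fun d g => d ++ [gdep d g]) []

/-- The depth of a circuit with oracle gates. -/
def depth (C : Circuit) : ℕ := wdep (gateDeps C.gates) C.out

/-- Relative to `A`, every circuit of size `S ≥ 2` (with at most `S` inputs) is equivalent to one of
depth at most `c log S` and size at most `S ^ c`. -/
def Shallow (A : Oracle) (c : ℕ) : Prop := ∀ (n S : ℕ) (C : Circuit), 2 ≤ S → n ≤ S → C.size ≤ S →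
  ∃ C' : Circuit, depth C' ≤ c * Nat.log 2 S ∧ C'.size ≤ S ^ c ∧
    ∀ x : List Bool, x.length = n → C'.eval A x = C.eval A x

/-! ## The hard function: a chain of questions -/

/-- the nodes of the chain -/
def chain (A : Oracle) (z : List Bool) (m : ℕ) : ℕ → List Bool
  | 0 => List.replicate m false
  | i + 1 => (List.range m).map (fun j => A (cw j z (chain A z m i)))

/-- the chain of length `t` is computed by a small circuit -/
def S_UPC : Prop := ∀ m t D : ℕ, 1 ≤ m → 1 ≤ t → ∃ C : Circuit,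
  C.size ≤ t * m * (D + 2 * m + 2) ∧ ∀ (A : Oracle) (z : List Bool), z.length = D →
    C.eval A z = (chain A z m t).getD 0 false

/-! ## Few rounds of questions -/

/-- the function is computed in `r` rounds of at most `q` parallel questions -/
def RQ {I : Type} [DecidableEq I] (q : ℕ) : ℕ → ((I → Bool) → Bool) → Prop
  | 0, g => ∃ c, ∀ a, g a = c
  | r + 1, g => ∃ Q : Finset I, Q.card ≤ q ∧ ∀ π : I → Bool, RQ q r (fun a => g (ow Q π a))

/-- simple facts: closed under fixing a bit; decision trees -/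
def S_RQD : Prop := ∀ (I : Type) [Fintype I] [DecidableEq I] (q r : ℕ) (g : (I → Bool) → Bool),
  RQ q r g → DTr (r * q) g ∧ (∀ i b, RQ q r (fun a => g (Function.update a i b))) ∧
    RQ q (r + 1) g

/-- circuits of small depth need few rounds of questions of length more than `lam`, if the answers
to the short questions are fixed -/
def S_RQ : Prop := ∀ (N lam w s : ℕ) (Sh : Finset (Fin N)) (π : Fin N → Bool) (C : Circuit)
  (z : List Bool), (∀ i : Fin N, (str i.val).length ≤ lam → i ∈ Sh) → 1 ≤ w →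
  w ≤ Nat.clog 2 (lam + 1) → C.size ≤ s →
  RQ s (depth C / w) (fun a : Fin N → Bool => C.eval (orc N (ow Sh π a)) z)

/-- the next node -/
def nxt {I : Type} {m : ℕ} (pos : (Fin m → Bool) → Fin m → I) (a : I → Bool) (x : Fin m → Bool) :
    Fin m → Bool := fun j => a (pos x j)

/-- few rounds of questions do not reach the end of a chain -/
def S_BLOCK1 : Prop := ∀ (I : Type) [Fintype I] [DecidableEq I] (m q r t : ℕ) (hm : 0 < m)
  (pos : (Fin m → Bool) → Fin m → I) (g : (I → Bool) → Bool),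
  (∀ x j x' j', pos x j = pos x' j' → x = x' ∧ j = j') → r < t → RQ q r g →
  Ex unif (fun a : I → Bool =>
    if g a = ((nxt pos a)^[t] (fun _ => false)) ⟨0, hm⟩ then (1 : ℝ) else 0) ≤
    1 / 2 + (t : ℝ) ^ 2 * (q + 1) / 2 ^ m

/-- shallow decision trees for random sequences of disjoint blocks, for a class `Cl` of functions
closed under fixing a bit -/
def S_SEQ1 : Prop := ∀ (I κ : Type) [Fintype I] [DecidableEq I] [Fintype κ] [DecidableEq κ]
  (Cl : ((I → Bool) → Bool) → Prop)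
  (T β K : ℕ) (p δ : ℝ) (B : κ → Finset I) (ok : κ → (I → Bool) → Bool → Bool)
  (f : κ → (I → Bool) → Bool), 0 ≤ p → 0 ≤ δ →
  (∀ g, Cl g → DTr T g) → (∀ g i b, Cl g → Cl (fun a => g (Function.update a i b))) →
  (∀ k, (B k).card ≤ β) → (∀ k k', k ≠ k' → Disjoint (B k) (B k')) →
  (∀ k a a' c, (∀ i ∈ B k, a i = a' i) → ok k a c = ok k a' c) →
  (∀ k g, Cl g → Ex unif (fun a : I → Bool => if ok k a (g a) = true then (1 : ℝ) else 0) ≤ p) →
  (∀ k, Cl (f k)) → (K : ℝ) * (T + β) ≤ δ * Fintype.card κ →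
  ∑ s : Fin K → κ, Ex unif (fun a : I → Bool =>
    if ∀ j, ok (s j) a (f (s j) a) = true then (1 : ℝ) else 0) ≤ ((p + δ) * Fintype.card κ) ^ K

/-- averaging over the bits in `Q` first -/
def S_EXOW : Prop := ∀ (I : Type) [Fintype I] [DecidableEq I] (Q : Finset I) (F : (I → Bool) → ℝ),
  Ex unif F = Ex unif (fun π => Ex unif (fun a => F (ow Q π a)))

/-- a fixed circuit of small depth does not compute all chains -/
def S_ONE : Prop := ∀ (N D m t s d K : ℕ) (C : Circuit), 1 ≤ m → 1 ≤ D →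
  (∀ y : List Bool, y.length ≤ D + 2 * m + 1 → idx y < N) →
  depth C ≤ d → C.size ≤ s → d / Nat.clog 2 (D + 1) < t →
  8 * t ^ 2 * (s + 1) ≤ 2 ^ m → 8 * K * (t * s + m * 2 ^ m) ≤ 2 ^ D →
  Ex unif (fun v : Fin N → Bool => haveI := Classical.propDecidable
    if ∀ z : List Bool, z.length = D → C.eval (orc N v) z = (chain (orc N v) z m t).getD 0 false
      then (1 : ℝ) else 0) ≤ (3 / 4) ^ K

/-- few circuits, up to equivalence, with the same size and depth -/
def S_CNTD : Prop := ∀ n k : ℕ, ∃ F : Finset Circuit, F.card ≤ nC n k ∧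
  ∀ C : Circuit, C.size ≤ k → ∃ C' ∈ F, C'.size ≤ k ∧ depth C' = depth C ∧
    ∀ (A : Oracle) (x : List Bool), x.length = n → C'.eval A x = C.eval A x

/-- numbers -/
def S_NUM1 : Prop := ∀ c : ℕ, ∃ B D₀ : ℕ, ∀ D ≥ D₀, ∃ m t K S s d : ℕ,
  1 ≤ m ∧ 1 ≤ t ∧ S = t * m * (D + 2 * m + 2) ∧ 2 ≤ S ∧ D ≤ S ∧ s = S ^ c ∧ d = c * Nat.log 2 S ∧
  D + 2 * m + 1 ≤ D ^ B ∧ S ≤ D ^ B ∧ s ≤ D ^ B ∧
  d / Nat.clog 2 (D + 1) < t ∧ 8 * t ^ 2 * (s + 1) ≤ 2 ^ m ∧
  8 * K * (t * s + m * 2 ^ m) ≤ 2 ^ D ∧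
  (nC D s : ℝ) * (3 / 4) ^ K ≤ (1 / 2) ^ (2 ^ (D / 2 + 1) : ℕ)

/-- lengths at which the gauge is small -/
def S_NUMF1 : Prop := ∀ f : ℕ → ℝ, (∀ ε : ℝ, 0 < ε → ∃ᶠ N : ℕ in atTop,
    f N ≤ 2 ^ (Real.logb 2 N) ^ ε) → ∀ B n₁ : ℕ,
  ∃ D ≥ n₁, ∃ N : ℕ, 2 ^ (D ^ B + 1) ≤ N ∧ f N ≤ (2 : ℝ) ^ (D / 2 : ℕ)

/-! ## Many changes -/

/-- an oracle that contains the values of all circuits -/
def S_CODE : Prop := ∀ (K : ℕ) (O : Oracle), ∃ (A : Oracle) (R : ℕ → ℕ)
  (u : ℕ → Circuit → List Bool),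
  (∀ S, (S + 1) ^ K ≤ R S) ∧ (∃ e : ℕ, ∀ S, R S ≤ (S + 2) ^ e) ∧
  (∀ S C, C.size ≤ S → (u S C).length + S = R S) ∧
  (∀ S C (x : List Bool), C.size ≤ S → x.length = S → A (u S C ++ x) = C.eval A x) ∧
  (∀ y, (¬ ∃ S C x, C.size ≤ S ∧ x.length = S ∧ y = u S C ++ x) → A y = O y) ∧
  (∀ S : ℕ, ∃ b : ℕ, (b + 1) ^ K ≤ R S ∧
    Set.ncard {y : List Bool | ∃ C x, C.size ≤ S ∧ x.length = S ∧ y = u S C ++ x} ≤ 2 ^ b)

/-- few strings are codes -/
def S_CLOSE : Prop := ∀ (g : ℕ → ℝ) (ε : ℝ), 0 < ε →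
  (∀ᶠ n : ℕ in atTop, (2 : ℝ) ^ (n : ℝ) ^ ε < g n) → ∃ K : ℕ,
  ∀ (O A : Oracle) (R : ℕ → ℕ) (W : ℕ → Set (List Bool)), (∀ S, (S + 1) ^ K ≤ R S) →
    (∀ S, ∀ y ∈ W S, y.length = R S) →
    (∀ S, ∃ b : ℕ, (b + 1) ^ K ≤ R S ∧ Set.ncard (W S) ≤ 2 ^ b) →
    (∀ y, (¬ ∃ S, y ∈ W S) → A y = O y) → Close g O A

/-- many changes make circuits shallow -/
def S_UP : Prop := ∀ g : ℕ → ℝ, (¬ ∀ ε : ℝ, 0 < ε → ∃ᶠ n : ℕ in atTop, g n ≤ 2 ^ (n : ℝ) ^ ε) →
  ∀ O : Oracle, ∃ A : Oracle, Close g O A ∧ ∃ c : ℕ, Shallow A c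

end Pool.Agent.W912.ND
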