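import Pool.Agent.W912.ND.Defs
import Pool.Agent.W538.SE.Seq

/-!
# Shallow decision trees on random sequences of disjoint blocks
-/

set_option autoImplicit false

namespace Pool.Agent.W912.ND

open Pool.Agent.NPC Pool.Agent.H620R2.Gauge H568R2 Pool.Agent.H676 Pool.Agent.W538.SE
open Finset

variable {I κ : Type} [Fintype I] [DecidableEq I] [Fintype κ] [DecidableEq κ]

/-- the subclaim -/
theorem sub1 {Cl : ((I → Bool) → Bool) → Prop}
    (hCu : ∀ g i b, Cl g → Cl (fun a => g (Function.update a i b))) {K : ℕ} {M δ' : ℝ} {B : κ → Finset I} {ok : κ → (I → Bool) → Bool → Bool}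
    (hdis : ∀ k k', k ≠ k' → Disjoint (B k) (B k'))
    (hok : ∀ k a a' c, (∀ i ∈ B k, a i = a' i) → ok k a c = ok k a' c)
    (hcl : ∀ (Z : Finset κ) (f : κ → (I → Bool) → Bool), (∀ k, Cl (f k)) →
      ((Zᶜ.card : ℕ) : ℝ) ≤ δ' → Ex unif (XK ok f Z K) ≤ M) :
    ∀ (t : ℕ) (G : (I → Bool) → Bool) (Z : Finset κ) (f : κ → (I → Bool) → Bool), DTr t G →
      (∀ k, Cl (f k)) → ((Zᶜ.card : ℕ) : ℝ) + t ≤ δ' →
      Ex unif (fun a => ind G a * XK ok f Z K a) ≤ M * Ex unif (ind G) := by
  have hconst : ∀ (G : (I → Bool) → Bool) (Z : Finset κ) (f : κ → (I → Bool) → Bool),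
      (∃ c, ∀ x, G x = c) → (∀ k, Cl (f k)) → ((Zᶜ.card : ℕ) : ℝ) ≤ δ' →
      Ex unif (fun a => ind G a * XK ok f Z K a) ≤ M * Ex unif (ind G) := by
    rintro G Z f ⟨c, hc⟩ hf hZ
    cases c with
    | true =>
      have h1 : ∀ a, ind G a = 1 := fun a => by simp [ind, hc a]
      have h2 : (fun a => ind G a * XK ok f Z K a) = XK ok f Z K := by
        funext a; rw [h1, one_mul]
      have h3 : ind G = fun _ => (1 : ℝ) := by
        funext a; exact h1 a
      rw [h2, h3, Ex_const usum, mul_one]
      exact hcl Z f hf hZ
    | false =>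
      have h1 : ∀ a, ind G a = 0 := fun a => by simp [ind, hc a]
      have h2 : (fun a => ind G a * XK ok f Z K a) = fun _ => (0 : ℝ) := by
        funext a; rw [h1, zero_mul]
      have h3 : ind G = fun _ => (0 : ℝ) := by
        funext a; exact h1 a
      rw [h2, h3, Ex_const usum, mul_zero]
  intro t
  induction t with
  | zero =>
    intro G Z f hG hf hZ
    exact hconst G Z f hG hf (by simpa using hZ)
  | succ t ih =>
    intro G Z f hG hf hZ
    rcases hG with hG | ⟨i, hG⟩
    · refine hconst G Z f hG hf ?_
      have : (0 : ℝ) ≤ ((t + 1 : ℕ) : ℝ) := Nat.cast_nonneg _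
      linarith
    · set Z' : Finset κ := Z.filter (fun k => i ∉ B k) with hZ'
      have hcard : Z'ᶜ.card ≤ Zᶜ.card + 1 := by
        have h1 : Z'ᶜ ⊆ Zᶜ ∪ (univ.filter (fun k => i ∈ B k)) := by
          intro k hk
          rw [Finset.mem_compl, hZ', Finset.mem_filter] at hk
          rw [Finset.mem_union, Finset.mem_compl, Finset.mem_filter]
          by_cases h : k ∈ Z
          · right
            refine ⟨mem_univ _, ?_⟩
            by_contra h2
            exact hk ⟨h, h2⟩
          · exact Or.inl h
        have h2 : (univ.filter (fun k => i ∈ B k)).card ≤ 1 := by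
          rw [Finset.card_le_one]
          intro k hk k' hk'
          by_contra hne
          exact Finset.disjoint_left.1 (hdis k k' hne) (Finset.mem_filter.1 hk).2
            (Finset.mem_filter.1 hk').2
        exact (Finset.card_le_card h1).trans ((Finset.card_union_le _ _).trans (by omega))
      have hX : ∀ (b : Bool) (a : I → Bool), XK ok f Z K (Function.update a i b) ≤
          XK ok (fun k a => f k (Function.update a i b)) Z' K a := by
        intro b a
        unfold XK
        refine pow_le_pow_left₀ (Finset.sum_nonneg fun k _ => rt_nonneg ok f Z k _) ?_ K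
        refine Finset.sum_le_sum fun k _ => ?_
        by_cases hk : k ∈ Z'
        · have hk2 := Finset.mem_filter.1 hk
          unfold rt
          rw [if_pos hk, if_pos hk2.1, hok k (Function.update a i b) a _ (by
            intro j hj
            rw [Function.update_of_ne]
            rintro rfl
            exact hk2.2 hj)]
        · have h3 : rt ok (fun k a => f k (Function.update a i b)) Z' k a = 1 := by
            unfold rt
            rw [if_neg hk]
          rw [h3]
          exact rt_le ok f Z k _
      have hb : ∀ b : Bool, Ex unif (fun a => ind G (Function.update a i b) *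
          XK ok f Z K (Function.update a i b)) ≤
          M * Ex unif (fun a => ind G (Function.update a i b)) := by
        intro b
        refine le_trans (Ex_mono unn fun a => mul_le_mul_of_nonneg_left (hX b a)
          (ind_nonneg _ _)) ?_
        have h4 := ih (fun a => G (Function.update a i b)) Z'
          (fun k a => f k (Function.update a i b)) (hG b) (fun k => hCu _ i b (hf k)) (by
            have : ((Z'ᶜ.card : ℕ) : ℝ) ≤ ((Zᶜ.card : ℕ) : ℝ) + 1 := by exact_mod_cast hcard
            push_cast at hZ
            linarith)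
        exact h4
      rw [Ex_resample usum (fun a => ind G a * XK ok f Z K a) i, Ex_resample usum (ind G) i]
      rw [Ex_sum univ unif (fun b ω => unif b * (ind G (Function.update ω i b) *
        XK ok f Z K (Function.update ω i b))), Ex_sum univ unif (fun b ω => unif b *
        (ind G (Function.update ω i b))), Finset.mul_sum]
      refine Finset.sum_le_sum fun b _ => ?_
      rw [Ex_smul, Ex_smul]
      have h5 := mul_le_mul_of_nonneg_left (hb b) (unn b)
      linarith

theorem claim1 {Cl : ((I → Bool) → Bool) → Prop} {T β : ℕ}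
    (hCd : ∀ g, Cl g → DTr T g)
    (hCu : ∀ g i b, Cl g → Cl (fun a => g (Function.update a i b))) {p δ : ℝ} {B : κ → Finset I} {ok : κ → (I → Bool) → Bool → Bool}
    (hp : 0 ≤ p) (hδ : 0 ≤ δ) (hB : ∀ k, (B k).card ≤ β)
    (hdis : ∀ k k', k ≠ k' → Disjoint (B k) (B k'))
    (hok : ∀ k a a' c, (∀ i ∈ B k, a i = a' i) → ok k a c = ok k a' c)
    (hone : ∀ k (g : (I → Bool) → Bool), Cl g →
      Ex unif (fun a : I → Bool => if ok k a (g a) = true then (1 : ℝ) else 0) ≤ p) :
    ∀ (K : ℕ) (Z : Finset κ) (f : κ → (I → Bool) → Bool), (∀ k, Cl (f k)) →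
      ((Zᶜ.card : ℕ) : ℝ) + K * (T + β) ≤ δ * Fintype.card κ →
      Ex unif (XK ok f Z K) ≤ ((p + δ) * Fintype.card κ) ^ K := by
  intro K
  induction K with
  | zero =>
    intro Z f _ _
    have : XK ok f Z 0 = fun _ => (1 : ℝ) := by
      funext a
      simp [XK]
    rw [this, Ex_const usum, pow_zero]
  | succ K ih =>
    intro Z f hf hZ
    set N : ℝ := (Fintype.card κ : ℝ) with hN
    have hN0 : 0 ≤ N := Nat.cast_nonneg _
    have hM : 0 ≤ ((p + δ) * N) ^ K := pow_nonneg (mul_nonneg (add_nonneg hp hδ) hN0) K
    have hTβ : (0 : ℝ) ≤ (T : ℝ) + β := by positivity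
    have hKT : (0 : ℝ) ≤ (K : ℝ) * (T + β) := by positivity
    push_cast at hZ
    have hsub := sub1 hCu (K := K) (M := ((p + δ) * N) ^ K)
      (δ' := δ * N - K * (T + β)) (B := B) (ok := ok) hdis hok
      (fun Z f hf h => ih Z f hf (by linarith)) (T + β)
    have h0 : XK ok f Z (K + 1) = fun a => ∑ k, rt ok f Z k a * XK ok f Z K a := by
      funext a
      unfold XK
      rw [pow_succ, mul_comm, Finset.sum_mul]
    rw [h0, Ex_sum]
    have hE : Ex unif (XK ok f Z K) ≤ ((p + δ) * N) ^ K := ih Z f hf (by linarith)
    have hk : ∀ k, Ex unif (fun a => rt ok f Z k a * XK ok f Z K a) ≤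
        ((p + δ) * N) ^ K * (if k ∈ Z then p else 1) := by
      intro k
      by_cases h : k ∈ Z
      · rw [if_pos h]
        have h1 : ∀ a, rt ok f Z k a = ind (fun a => ok k a (f k a)) a := by
          intro a
          unfold rt ind
          rw [if_pos h]
        have h2 : DTr (T + β) (fun a => ok k a (f k a)) := by
          have h3 : DTr ((B k).card + T) (fun a => ok k a (f k a)) := by
            apply DTr.query
            intro π
            have h4 := (dtr_ow (hCd _ (hf k)) (B k) π).comp (fun c => ok k π c)
            refine (congrArg (DTr T) (funext fun x => ?_)).mp h4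
            apply hok
            intro i hi
            unfold ow
            rw [if_pos hi]
          exact h3.mono (by have := hB k; omega)
        have h5 := hsub (fun a => ok k a (f k a)) Z f h2 hf (by push_cast; linarith)
        have h6 : (fun a => rt ok f Z k a * XK ok f Z K a) =
            fun a => ind (fun a => ok k a (f k a)) a * XK ok f Z K a := by
          funext a; rw [h1]
        rw [h6]
        refine h5.trans (mul_le_mul_of_nonneg_left ?_ hM)
        exact hone k (f k) (hf k)
      · rw [if_neg h, mul_one]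
        have h6 : (fun a => rt ok f Z k a * XK ok f Z K a) = XK ok f Z K := by
          funext a
          unfold rt
          rw [if_neg h, one_mul]
        rw [h6]
        exact hE
    refine (Finset.sum_le_sum fun k _ => hk k).trans ?_
    rw [← Finset.mul_sum, pow_succ]
    refine mul_le_mul_of_nonneg_left ?_ hM
    rw [Finset.sum_ite, Finset.sum_const, Finset.sum_const, nsmul_eq_mul, nsmul_eq_mul, mul_one]
    have h7 : ((univ.filter (fun k => k ∈ Z)).card : ℝ) ≤ N := by
      rw [hN]
      exact_mod_cast (Finset.card_le_univ _)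
    have h8 : ((univ.filter (fun k => k ∉ Z)).card : ℝ) ≤ δ * N := by
      have h9 : univ.filter (fun k => k ∉ Z) = Zᶜ := by
        ext k; simp
      rw [h9]
      have : (0 : ℝ) ≤ ((K : ℝ) + 1) * (T + β) := by positivity
      linarith
    calc _ ≤ N * p + δ * N := add_le_add (mul_le_mul_of_nonneg_right h7 hp) h8
      _ = (p + δ) * N := by ring

theorem seq1 : S_SEQ1 := by
  intro I κ _ _ _ _ Cl T β K p δ B ok f hp hδ hCd hCu hB hdis hok hone hf hK
  have h1 := claim1 hCd hCu hp hδ hB hdis hok hone K Finset.univ f hf (by simpa using hK)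
  have h2 : XK ok f Finset.univ K = fun a => ∑ s : Fin K → κ,
      (if ∀ j, ok (s j) a (f (s j) a) = true then (1 : ℝ) else 0) := by
    funext a
    unfold XK
    rw [Fintype.sum_pow]
    refine Finset.sum_congr rfl fun s _ => ?_
    have h3 : ∀ j, rt ok f Finset.univ (s j) a =
        if ok (s j) a (f (s j) a) = true then (1 : ℝ) else 0 := by
      intro j
      unfold rt
      rw [if_pos (Finset.mem_univ _)]
    rw [Finset.prod_congr rfl fun j _ => h3 j]
    by_cases hall : ∀ j, ok (s j) a (f (s j) a) = true
    · rw [if_pos hall]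
      exact Finset.prod_eq_one fun j _ => if_pos (hall j)
    · rw [if_neg hall]
      push Not at hall
      obtain ⟨j, hj⟩ := hall
      exact Finset.prod_eq_zero (Finset.mem_univ j) (if_neg hj)
  rw [h2, Ex_sum] at h1
  refine le_trans (le_of_eq ?_) h1
  refine Finset.sum_congr rfl fun s _ => ?_
  congr 1

end Pool.Agent.W912.ND
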