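import Pool.Agent.W912.ND.Low
import Pool.Agent.W912.ND.Seq1
import Pool.Agent.W376.ND.Up
import Pool.Agent.W254.NDCode
import Pool.Agent.W378.ND.Numf1
import Pool.Agent.W392.ND.Num1
import Pool.Agent.W995.ND.CNTD
import Pool.Agent.W563.ND.One
import Pool.Agent.W917.ND.UPC
import Pool.Agent.W327.ND.RQD
import Pool.Agent.W154.ND.Exow
import Pool.Agent.W346.ND.Block1
import Pool.Agent.W82.ND.CloseT
import Pool.Agent.W317.NDRQ

/-!
# Both parts
-/

set_option autoImplicit false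

namespace Pool.Agent.W912.ND

open Pool.Agent.NPC Pool.Agent.H620R2.Gauge Pool.Agent.W900.CH
open MeasureTheory Filter
open Pool.Agent.H628R3.RO (randomOracle)

theorem low_all {g : ℕ → ℝ}
    (hg : ∀ ε : ℝ, 0 < ε → ∃ᶠ n : ℕ in atTop, g n ≤ 2 ^ (n : ℝ) ^ ε) :
    ∀ᵐ O ∂randomOracle, ∀ A, Close g O A → ∀ c : ℕ, ¬ Shallow A c :=
  low (Pool.Agent.W563.ND.one Pool.Agent.W327.ND.RQD.main Pool.Agent.W317.NDRQ.rq
    Pool.Agent.W346.ND.block1 seq1 Pool.Agent.W154.ND.exow) Pool.Agent.W995.ND.CNTD.main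
    Pool.Agent.W917.ND.s_upc Pool.Agent.W392.ND.num1 Pool.Agent.W378.ND.numf1 hg

theorem up_all : S_UP := Pool.Agent.W376.ND.up Pool.Agent.W254.NDCode.s_code
  Pool.Agent.W82.ND.close

end Pool.Agent.W912.ND
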