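import Pool.Agent.W912.ND.Defs
import Pool.Agent.H622R2.Ckt.LOC
import Pool.Agent.W912.SE.Low

/-!
# The lower bound: assembly
-/

set_option autoImplicit false

namespace Pool.Agent.W912.ND

open Pool.Agent.NPC Pool.Agent.H620R2.Gauge Pool.Agent.H622R2.Ckt H568R2 Pool.Agent.H676
open Pool.Agent.W900.CH Filter Finset
open Pool.Agent.W912.SE (cw length_cw)
open Pool.Agent.H628R3.RO (randomOracle)

theorem length_chain (A : Oracle) (z : List Bool) (m i : ℕ) : (chain A z m i).length = m := by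
  cases i with
  | zero => simp [chain]
  | succ i => simp [chain]

/-- the chain only depends on strings of bounded length -/
theorem chain_congr {A A' : Oracle} {z : List Bool} {m : ℕ}
    (h : ∀ y : List Bool, y.length ≤ z.length + 2 * m + 1 → A y = A' y) (i : ℕ) :
    chain A z m i = chain A' z m i := by
  induction i with
  | zero => rfl
  | succ i ih =>
    unfold chain
    rw [ih]
    apply List.map_congr_left
    intro j hj
    rw [List.mem_range] at hj
    apply h
    rw [length_cw, length_chain]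
    omega

open Classical in
/-- the event -/
def Ev (D m t s d N : ℕ) (v : Fin N → Bool) : Prop :=
  ∃ C : Circuit, C.size ≤ s ∧ depth C ≤ d ∧
    ∀ z : List Bool, z.length = D → C.eval (orc N v) z = (chain (orc N v) z m t).getD 0 false

theorem ev_bound (h1 : S_ONE) (h2 : S_CNTD) {N D m t s d K : ℕ} (a1 : 1 ≤ m) (a2 : 1 ≤ D)
    (a3 : ∀ y : List Bool, y.length ≤ D + 2 * m + 1 → idx y < N)
    (a4 : d / Nat.clog 2 (D + 1) < t) (a5 : 8 * t ^ 2 * (s + 1) ≤ 2 ^ m)
    (a6 : 8 * K * (t * s + m * 2 ^ m) ≤ 2 ^ D) :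
    Ex unif (fun v : Fin N → Bool => haveI := Classical.propDecidable
      if Ev D m t s d N v then (1 : ℝ) else 0) ≤ (nC D s : ℝ) * (3 / 4) ^ K := by
  classical
  obtain ⟨F, hF1, hF2⟩ := h2 D s
  have hle : ∀ v : Fin N → Bool, (if Ev D m t s d N v then (1 : ℝ) else 0) ≤
      ∑ C ∈ F.filter (fun C => C.size ≤ s ∧ depth C ≤ d), (if ∀ z : List Bool, z.length = D →
        C.eval (orc N v) z = (chain (orc N v) z m t).getD 0 false then (1 : ℝ) else 0) := by
    intro v
    have hnn : ∀ C : Circuit, (0 : ℝ) ≤ (if ∀ z : List Bool, z.length = D →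
        C.eval (orc N v) z = (chain (orc N v) z m t).getD 0 false then (1 : ℝ) else 0) := by
      intro C
      split_ifs <;> norm_num
    by_cases hv : Ev D m t s d N v
    · rw [if_pos hv]
      obtain ⟨C, c1, c2, c3⟩ := hv
      obtain ⟨C', d1, d2, d3, d4⟩ := hF2 C c1
      have h3 : (if ∀ z : List Bool, z.length = D →
          C'.eval (orc N v) z = (chain (orc N v) z m t).getD 0 false then (1 : ℝ) else 0) = 1 :=
        if_pos fun z hz => by rw [d4 _ z hz, c3 z hz]
      refine (le_of_eq h3.symm).trans ?_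
      refine Finset.single_le_sum (f := fun C : Circuit => (if ∀ z : List Bool, z.length = D →
        C.eval (orc N v) z = (chain (orc N v) z m t).getD 0 false then (1 : ℝ) else 0))
        (fun C _ => hnn C) ?_
      rw [Finset.mem_filter]
      exact ⟨d1, d2, by rw [d3]; exact c2⟩
    · rw [if_neg hv]
      exact Finset.sum_nonneg fun C _ => hnn C
  have e0 : Ex unif (fun v : Fin N → Bool => if Ev D m t s d N v then (1 : ℝ) else 0) ≤
      Ex unif (fun v : Fin N → Bool => ∑ C ∈ F.filter (fun C => C.size ≤ s ∧ depth C ≤ d),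
        (if ∀ z : List Bool, z.length = D →
        C.eval (orc N v) z = (chain (orc N v) z m t).getD 0 false then (1 : ℝ) else 0)) :=
    Ex_mono unif_nonneg hle
  rw [Ex_sum] at e0
  refine (le_trans (le_of_eq ?_) e0).trans ?_
  · congr 1
  have e1 : ∀ C ∈ F.filter (fun C => C.size ≤ s ∧ depth C ≤ d), Ex unif (fun v : Fin N → Bool =>
      (if ∀ z : List Bool, z.length = D →
        C.eval (orc N v) z = (chain (orc N v) z m t).getD 0 false then (1 : ℝ) else 0)) ≤
      (3 / 4) ^ K := by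
    intro C hC
    rw [Finset.mem_filter] at hC
    have e2 := h1 N D m t s d K C a1 a2 a3 hC.2.2 hC.2.1 a4 a5 a6
    refine le_trans (le_of_eq ?_) e2
    congr 1
  refine (Finset.sum_le_sum e1).trans ?_
  rw [Finset.sum_const, nsmul_eq_mul]
  refine mul_le_mul_of_nonneg_right ?_ (by positivity)
  exact_mod_cast (Finset.card_filter_le _ _).trans hF1

/-- shallow simulation implies the event -/
theorem ev_of_shallow (h3 : S_UPC) {A : Oracle} {c D m t S N B : ℕ} (hS : Shallow A c)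
    (a1 : 1 ≤ m) (a2 : 1 ≤ t) (a3 : S = t * m * (D + 2 * m + 2)) (a4 : 2 ≤ S) (a5 : D ≤ S)
    (a6 : D + 2 * m + 1 ≤ B) (a7 : S ≤ B) (a8 : S ^ c ≤ B) (hN : 2 ^ (B + 1) ≤ N) :
    Ev D m t (S ^ c) (c * Nat.log 2 S) N (pre N A) := by
  have hshort : ∀ y : List Bool, y.length ≤ B → orc N (pre N A) y = A y := by
    intro y hy
    apply orc_pre
    have h1 := idx_lt y
    have h2 : 2 ^ (y.length + 1) ≤ 2 ^ (B + 1) := Nat.pow_le_pow_right (by norm_num) (by omega)
    omega
  obtain ⟨C, c1, c2⟩ := h3 m t D a1 a2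
  obtain ⟨C', d1, d2, d3⟩ := hS D S C a4 a5 (by rw [a3]; exact c1)
  refine ⟨C', d2, d1, fun z hz => ?_⟩
  have e1 : C'.eval (orc N (pre N A)) z = C'.eval A z := by
    apply eval_local
    intro y hy
    exact hshort y (by omega)
  rw [e1, d3 z hz, c2 A z hz, chain_congr (A := orc N (pre N A)) (A' := A)]
  intro y hy
  exact hshort y (by omega)

theorem null_shallow (h1 : S_ONE) (h2 : S_CNTD) (h3 : S_UPC) (h4 : S_NUM1) (h5 : S_NUMF1)
    {f : ℕ → ℝ} (hf : ∀ ε : ℝ, 0 < ε → ∃ᶠ N : ℕ in atTop, f N ≤ 2 ^ (Real.logb 2 N) ^ ε) (c : ℕ) :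
    Null f {A | Shallow A c} := by
  classical
  intro δ hδ
  obtain ⟨B, D₀, hnum⟩ := h4 c
  obtain ⟨k₁, hk₁⟩ := exists_pow_lt_of_lt_one hδ (by norm_num : (1 / 2 : ℝ) < 1)
  obtain ⟨D, hD, N, hN1, hfN⟩ := h5 f hf B (D₀ + 2 * k₁ + 2)
  obtain ⟨m, t, K, S, s, d, b1, b2, b3, b4, b5, b6, b7, b8, b9, b10, b11, b12, b13, b14⟩ :=
    hnum D (by omega)
  have ha3 : ∀ y : List Bool, y.length ≤ D + 2 * m + 1 → idx y < N := by
    intro y hy
    have h1 := idx_lt y
    have h2 : 2 ^ (y.length + 1) ≤ 2 ^ (D ^ B + 1) := Nat.pow_le_pow_right (by norm_num) (by omega)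
    omega
  refine cover_of_event (Ev D m t s d N) {A | Shallow A c} ?_ f δ ?_
  · intro A hA
    rw [b6, b7]
    exact ev_of_shallow h3 hA b1 b2 b3 b4 b5 b8 b9 (by rw [← b6]; exact b10) hN1
  · have e1 := ev_bound h1 h2 (N := N) (K := K) b1 (by omega) ha3 b11 b12 b13
    obtain ⟨E, hE⟩ : ∃ E, E = D / 2 := ⟨_, rfl⟩
    rw [← hE] at b14 hfN
    have e2 : (2 : ℝ) ^ f N ≤ 2 ^ (2 ^ E : ℕ) := by
      rw [← Real.rpow_natCast]
      apply Real.rpow_le_rpow_of_exponent_le (by norm_num)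
      push_cast
      exact hfN
    have e3 : Ex unif (fun v : Fin N → Bool => if Ev D m t s d N v then (1 : ℝ) else 0) ≤
        (1 / 2) ^ (2 ^ (E + 1)) := by
      refine le_trans (le_of_eq ?_) (e1.trans b14)
      congr 1
    have e4 : k₁ ≤ 2 ^ E := by
      have h8 : E < 2 ^ E := Nat.lt_two_pow_self
      omega
    calc Ex unif (fun v : Fin N → Bool => if Ev D m t s d N v then (1 : ℝ) else 0) * 2 ^ f N
        ≤ (1 / 2) ^ (2 ^ (E + 1)) * 2 ^ (2 ^ E : ℕ) := by
          refine mul_le_mul e3 e2 (by positivity) (by positivity)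
      _ = (1 / 2) ^ (2 ^ E) := by
          have e5 : 2 ^ (E + 1) = 2 ^ E + 2 ^ E := by rw [pow_succ]; ring
          rw [e5, pow_add, mul_assoc, ← mul_pow]
          norm_num
      _ ≤ (1 / 2) ^ k₁ := pow_le_pow_of_le_one (by norm_num) (by norm_num) e4
      _ ≤ δ := hk₁.le

/-- the lower bound -/
theorem low (h1 : S_ONE) (h2 : S_CNTD) (h3 : S_UPC) (h4 : S_NUM1) (h5 : S_NUMF1) {g : ℕ → ℝ}
    (hg : ∀ ε : ℝ, 0 < ε → ∃ᶠ n : ℕ in atTop, g n ≤ 2 ^ (n : ℝ) ^ ε) :
    ∀ᵐ O ∂randomOracle, ∀ A, Close g O A → ∀ c : ℕ, ¬ Shallow A c := by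
  have h6 := ae_far_P (S := ⋃ c, {A | Shallow A c}) (fun f hf => null_iUnion
    (fun c => {A | Shallow A c}) fun c => null_shallow h1 h2 h3 h4 h5 hf c) hg
  filter_upwards [h6] with O hO A hA c hc
  exact hO A hA (Set.mem_iUnion.2 ⟨c, hc⟩)

end Pool.Agent.W912.ND
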